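import Pool.Agent.H59.LNT.FLO

/-!
# Row FLA: invariants of degree `d` as functions on flat words
-/

set_option autoImplicit false

namespace Pool.Agent.H59.LNT

open Pool.Agent.H59.LIN Pool.Agent.H13.LN

theorem lft_append {n : ℕ} (u v : Wd n) : lft (u ++ v) = lft u ++ lft v := List.map_append

theorem lft_t {n : ℕ} (i : Fin n) (v : Wd n) : lft ((i, true) :: v) = (i, none) :: lft v := rfl

theorem lft_f {n : ℕ} (i : Fin n) (v : Wd n) :
    lft ((i, false) :: v) = (i, some true) :: lft v := rfl

theorem lft_up {n : ℕ} (w : Wd n) :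
    lft (up w) = (lft w).map fun x => (x.1.castSucc, x.2) := by
  simp [lft, up]

theorem pf_FLA (hRUN : T_RUN) (hFCC : T_FCC) (hFLO : T_FLO) (hFFO : T_FFO) (hFGL : T_FGL) :
    T_FLA := by
  intro B _ v d hv hd
  obtain ⟨-, -, -, -, -, -, -, hR, -⟩ := hRUN
  obtain ⟨hC, hC'⟩ := hFCC B v d hd
  have kn : ∀ {n : ℕ} {f : Wd n}, Knot f → Knot (lft f) := fun {n f} h =>
    knot_of (hR n f).1.symm h
  have dn : ∀ {n : ℕ} {f : Wd n}, nd f = d → dbl (lft f) = d := fun {n f} h =>
    ((hR n f).2.1).trans h
  refine ⟨?_, hC'⟩
  refine ⟨?_, ?_, ?_, ?_, ?_, ?_, ?_, ?_, ?_, ?_⟩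
  · intro n u w i hk hn
    have e : nd (u ++ (i, false) :: (i, false) :: w) = d := by
      rw [← hn]
      simp [nd]
    have k : Knot (u ++ (i, false) :: (i, false) :: w) := by
      refine knot_of (u := u ++ w) ?_ hk
      funext p
      simp only [run_append, run, tr_tr]
    have hk' := kn hk
    have k' := kn k
    have e' := dn e
    simp only [lft_append, lft_f] at k' e' hk' ⊢
    have h₁ := hC n (lft u ++ [(i, some true)]) (lft w) i (by simpa using k') (by simpa using e')
    simp only [List.append_assoc, List.cons_append, List.nil_append] at h₁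
    rw [h₁]
    exact (hFLO B v hv n (lft u) (lft w)).1 i hk'
  · intro n u w i j b c h hk hn
    have hk' := kn hk
    rw [lft_append, lft_append] at *
    exact (hFLO B v hv n (lft u) (lft w)).2.1 i j _ _ h hk'
  · intro n u w i j h hk hn
    have hk' := kn hk
    simp only [lft_append, lft_f] at hk' ⊢
    exact (hFLO B v hv n (lft u) (lft w)).2.2.2.1 i j (some true) h hk'
  · intro n u w i hk hn
    have hk' := kn hk
    simp only [lft_append, lft_f, lft_t] at hk' ⊢
    exact (hFLO B v hv n (lft u) (lft w)).2.2.1 i hk'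
  · intro n u w i j h hk hn
    have hk' := kn hk
    simp only [lft_append, lft_f, lft_t] at hk' ⊢
    exact (hFLO B v hv n (lft u) (lft w)).2.2.2.1 i j none h hk'
  · intro n u w i j h hk hn
    have hk' := kn hk
    simp only [lft_append, lft_f, lft_t] at hk' ⊢
    exact (hFLO B v hv n (lft u) (lft w)).2.2.2.2 i j none h hk'
  · intro n u w hk hn
    have hk' := kn hk
    rw [lft_append] at hk'
    simp only [lft_append]
    exact (hFGL B v hv n (lft u) (lft w) hk').1
  · intro n w hk hn
    have hk' := kn hk
    have := (hFGL B v hv n (lft w) [] (by simpa using hk')).2.1 true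
    simp only [List.append_nil] at this
    rw [← this, ← lft_up]
    simp only [lft_append]
    rfl
  · intro n w hk hn
    have hk' := kn hk
    have := (hFGL B v hv n (lft w) [] (by simpa using hk')).2.2
    simp only [List.append_nil] at this
    rw [← this, ← lft_up]
    simp only [lft_append]
    rfl
  · intro n u w i j h hk hn
    have hk' := kn hk
    simp only [lft_append, lft_f, lft_t] at hk' ⊢
    exact hFFO B v hv n (lft u) (lft w) i j h hk'

end Pool.Agent.H59.LNT
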