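import Pool.Agent.H59.LNT.COX

/-!
# Row NF: flat words with the same permutation and the same pairs of strands are equivalent
-/

set_option autoImplicit false

namespace Pool.Agent.H59.LNT

open Pool.Agent.H59.LIN Pool.Agent.H13.LN

theorem nd_app {n : ℕ} (u v : Wd n) : nd (u ++ v) = nd u + nd v := by
  simp [nd, List.countP_append]

theorem nd_rev {n : ℕ} (u : Wd n) : nd u.reverse = nd u := by
  simp [nd]

theorem run_rev {n : ℕ} (u : Wd n) (p : Fin (n + 1)) : run u.reverse (run u p) = p := by
  induction u generalizing p with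
  | nil => rfl
  | cons x u ih =>
    rw [List.reverse_cons, run_append]
    change tr x.1 (run u.reverse (run u (tr x.1 p))) = p
    rw [ih, tr_tr]

theorem run_rev' {n : ℕ} (u : Wd n) (p : Fin (n + 1)) : run u (run u.reverse p) = p := by
  have := run_rev u.reverse p
  rwa [List.reverse_reverse] at this

theorem split_nd {n : ℕ} (f : Wd n) :
    nd f = 0 ∨ ∃ (U : Wd n) (i : Fin n) (f₂ : Wd n), f = U ++ (i, true) :: f₂ ∧ nd U = 0 := by
  induction f with
  | nil => left; rfl
  | cons x f ih =>
    obtain ⟨i, b⟩ := x
    cases b with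
    | true => exact Or.inr ⟨[], i, f, rfl, rfl⟩
    | false =>
      rcases ih with h | ⟨U, j, f₂, rfl, h⟩
      · left
        simpa [nd] using h
      · exact Or.inr ⟨(i, false) :: U, j, f₂, rfl, by simpa [nd] using h⟩

/-- the first double point -/
theorem step {n : ℕ} (hXC : T_XC) (U U' : Wd n) (i i' : Fin n) (hU : nd U = 0) (hU' : nd U' = 0)
    (h : (run U.reverse i.castSucc = run U'.reverse i'.castSucc ∧
        run U.reverse i.succ = run U'.reverse i'.succ) ∨
      (run U.reverse i.castSucc = run U'.reverse i'.succ ∧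
        run U.reverse i.succ = run U'.reverse i'.castSucc)) :
    ∃ R : Wd n, nd R = 0 ∧ Eqv (U' ++ [(i', true)]) (U ++ (i, true) :: R) := by
  rcases h with ⟨h₁, h₂⟩ | ⟨h₁, h₂⟩
  · refine ⟨U.reverse ++ U', by rw [nd_app, nd_rev, hU, hU'], ?_⟩
    have hx : Eqv ((i, true) :: (U.reverse ++ U')) ((U.reverse ++ U') ++ [(i', true)]) := by
      refine hXC n _ i i' (by rw [nd_app, nd_rev, hU, hU']) ?_ ?_
      · rw [run_append, h₁, run_rev']
      · rw [run_append, h₂, run_rev']
    have hc : Eqv U' (U ++ (U.reverse ++ U')) := by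
      refine pf_COX n _ _ hU' (by rw [nd_app, nd_app, nd_rev, hU, hU']) ?_
      funext p
      rw [run_append, run_append, run_rev]
    refine eqv_trans (eqv_app hc (eqv_refl _)) ?_
    rw [List.append_assoc]
    exact eqv_app (eqv_refl U) (eqv_symm hx)
  · have hx : Eqv ((i, true) :: (U.reverse ++ (U' ++ [(i', false)])))
        ((U.reverse ++ (U' ++ [(i', false)])) ++ [(i', true)]) := by
      refine hXC n _ i i' ?_ ?_ ?_
      · rw [nd_app, nd_app, nd_rev, hU, hU']
        rfl
      · rw [run_append, h₁, run_append, run_rev']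
        change tr i' i'.succ = _
        exact Equiv.swap_apply_right _ _
      · rw [run_append, h₂, run_append, run_rev']
        change tr i' i'.castSucc = _
        exact Equiv.swap_apply_left _ _
    refine ⟨(U.reverse ++ (U' ++ [(i', false)])) ++ [(i', false)], ?_, ?_⟩
    · rw [nd_app, nd_app, nd_app, nd_rev, hU, hU']
      rfl
    have hc : Eqv U' (U ++ ((U.reverse ++ (U' ++ [(i', false)])) ++ [(i', false)])) := by
      refine pf_COX n _ _ hU' ?_ ?_
      · rw [nd_app, nd_app, nd_app, nd_app, nd_rev, hU, hU']
        rfl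
      · funext p
        rw [run_append, run_append, run_append, run_append, run_rev]
        change _ = tr i' (tr i' _)
        rw [tr_tr]
    refine eqv_trans (eqv_app hc (eqv_refl _)) ?_
    rw [List.append_assoc]
    refine eqv_app (eqv_refl U) ?_
    have hs : Eqv (((U.reverse ++ (U' ++ [(i', false)])) ++ [(i', false)]) ++ [(i', true)])
        ((U.reverse ++ (U' ++ [(i', false)])) ++ [(i', true)] ++ [(i', false)]) := by
      have := St.sx (U.reverse ++ (U' ++ [(i', false)])) [] i'
      rw [List.append_assoc, List.append_assoc (U.reverse ++ (U' ++ [(i', false)]))]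
      exact Relation.EqvGen.rel _ _ this
    refine eqv_trans hs ?_
    exact eqv_app (eqv_symm hx) (eqv_refl [(i', false)])

theorem pf_NF (hRUN : T_RUN) (hPRL : T_PRL) (hXC : T_XC) : T_NF := by
  obtain ⟨hP₁, hP₂, hP₃, -⟩ := hPRL
  have hrp := hRUN.2.2.1
  have hrs : ∀ (n : ℕ) (u : Wd n) (q : Fin (n + 1)), (rp u).symm q = run u.reverse q := by
    intro n u q
    rw [Equiv.symm_apply_eq, hrp, run_rev']
  have hrpe : ∀ (n : ℕ) (u v : Wd n), Eqv u v → rp u = rp v := by
    intro n u v h
    ext p
    rw [hrp, hrp, eqv_run h]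
  have hrpa : ∀ (n : ℕ) (u v : Wd n), rp (u ++ v) = (rp u).trans (rp v) := by
    intro n u v
    ext p
    rw [Equiv.trans_apply, hrp, hrp, hrp, run_append]
  have hpn : ∀ (n : ℕ) (σ : Equiv.Perm (Fin (n + 1))) (u : Wd n), nd u = 0 → pr σ u = [] := by
    intro n σ u h
    rw [← List.length_eq_zero_iff, hP₃, h]
  have hps : ∀ (n : ℕ) (U f₂ : Wd n) (i : Fin n), nd U = 0 →
      pr (Equiv.refl _) (U ++ (i, true) :: f₂) =
        (run U.reverse i.castSucc, run U.reverse i.succ) :: pr (rp (U ++ [(i, true)])) f₂ := by
    intro n U f₂ i hU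
    rw [hP₁, hpn _ _ U hU, List.nil_append, Equiv.refl_trans]
    change [((rp U).symm i.castSucc, (rp U).symm i.succ)] ++ pr ((rp U).trans (tr i)) f₂ = _
    rw [hrs, hrs, hrpa]
    have : rp [(i, true)] = tr i := by
      ext p
      rw [hrp]
      rfl
    rw [this]
    rfl
  have main : ∀ (k n : ℕ) (f f' : Wd n), nd f = k → run f = run f' →
      List.Forall₂ (fun x y => x = y ∨ x = Prod.swap y) (pr (Equiv.refl _) f)
        (pr (Equiv.refl _) f') → Eqv f f' := by
    intro k
    induction k using Nat.strong_induction_on with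
    | _ k ih =>
      intro n f f' hk hr hf
      have hl : nd f = nd f' := by
        have := hf.length_eq
        rwa [hP₃, hP₃] at this
      rcases split_nd f with h | ⟨U, i, f₂, rfl, hU⟩
      · exact pf_COX n f f' h (by omega) hr
      rcases split_nd f' with h | ⟨U', i', f₂', rfl, hU'⟩
      · rw [h, nd_app] at hl
        simp [nd] at hl
      rw [hps n U f₂ i hU, hps n U' f₂' i' hU', List.forall₂_cons] at hf
      obtain ⟨hh, ht⟩ := hf
      obtain ⟨R, hR, he⟩ := step hXC U U' i i' hU hU' (by
        rcases hh with hh | hh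
        · left
          exact ⟨congrArg Prod.fst hh, congrArg Prod.snd hh⟩
        · right
          exact ⟨congrArg Prod.fst hh, congrArg Prod.snd hh⟩)
      have e₁ : Eqv (U' ++ (i', true) :: f₂') (U ++ (i, true) :: (R ++ f₂')) := by
        have := eqv_app he (eqv_refl f₂')
        simpa using this
      have e₂ : Eqv f₂ (R ++ f₂') := by
        refine ih (nd f₂) ?_ n _ _ rfl ?_ ?_
        · rw [← hk, nd_app]
          have : nd ((i, true) :: f₂) = nd f₂ + 1 := by simp [nd]
          omega
        · have : ∀ p, run (U ++ (i, true) :: f₂) p = run (U ++ (i, true) :: (R ++ f₂')) p := by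
            intro p
            rw [hr]
            exact eqv_run e₁ p
          funext q
          have hq := this (run U.reverse (tr i q))
          rw [run_append, run_append, run_rev'] at hq
          change run f₂ (tr i (tr i q)) = run (R ++ f₂') (tr i (tr i q)) at hq
          rwa [tr_tr] at hq
        · rw [hP₁, hpn _ _ R hR, List.nil_append, Equiv.refl_trans]
          have e₃ : rp (U' ++ [(i', true)]) = (rp (U ++ [(i, true)])).trans (rp R) := by
            rw [hrpe n _ _ he, ← hrpa]
            simp
          have e₄ : rp (U ++ [(i, true)]) = (rp (U ++ [(i, true)])).trans (Equiv.refl _) := by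
            rw [Equiv.trans_refl]
          rw [e₃, hP₂] at ht
          rw [e₄, hP₂, Equiv.trans_refl, List.forall₂_map_left_iff, List.forall₂_map_right_iff] at ht
          refine ht.imp fun x y hxy => ?_
          have hin := (rp (U ++ [(i, true)])).symm.injective
          rcases hxy with h | h
          · left
            exact Prod.ext (hin (congrArg Prod.fst h)) (hin (congrArg Prod.snd h))
          · right
            exact Prod.ext (hin (congrArg Prod.fst h)) (hin (congrArg Prod.snd h))
      exact eqv_trans (eqv_app (eqv_refl U) (eqv_cons (i, true) e₂)) (eqv_symm e₁)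
  intro n f f' hr hf
  exact main (nd f) n f f' rfl hr hf

end Pool.Agent.H59.LNT
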