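import Pool.Agent.H13.LN.Targets

/-!
# Row COX: flat words without double points are determined by their permutation
-/

set_option autoImplicit false

namespace Pool.Agent.H59.LNT

open Pool.Agent.H59.LIN Pool.Agent.H13.LN

/-! ### equivalence of flat words -/

theorem eqv_refl {n : ℕ} (f : Wd n) : Eqv f f := Relation.EqvGen.refl f

theorem eqv_symm {n : ℕ} {f g : Wd n} (h : Eqv f g) : Eqv g f := Relation.EqvGen.symm _ _ h

theorem eqv_trans {n : ℕ} {f g h : Wd n} (h₁ : Eqv f g) (h₂ : Eqv g h) : Eqv f h :=
  Relation.EqvGen.trans _ _ _ h₁ h₂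

theorem st_ctx {n : ℕ} {f g : Wd n} (a b : Wd n) (h : St f g) :
    St (a ++ f ++ b) (a ++ g ++ b) := by
  cases h with
  | ss u v i => simpa using St.ss (a ++ u) (v ++ b) i
  | far u v i j b' c h => simpa using St.far (a ++ u) (v ++ b) i j b' c h
  | braid u v i j h => simpa using St.braid (a ++ u) (v ++ b) i j h
  | sx u v i => simpa using St.sx (a ++ u) (v ++ b) i
  | ssx u v i j h => simpa using St.ssx (a ++ u) (v ++ b) i j h
  | ssx' u v i j h => simpa using St.ssx' (a ++ u) (v ++ b) i j h

theorem eqv_ctx {n : ℕ} {f g : Wd n} (a b : Wd n) (h : Eqv f g) :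
    Eqv (a ++ f ++ b) (a ++ g ++ b) := by
  induction h with
  | rel x y h => exact Relation.EqvGen.rel _ _ (st_ctx a b h)
  | refl x => exact eqv_refl _
  | symm x y _ ih => exact eqv_symm ih
  | trans x y z _ _ ih₁ ih₂ => exact eqv_trans ih₁ ih₂

theorem eqv_app {n : ℕ} {f g f' g' : Wd n} (h : Eqv f g) (h' : Eqv f' g') :
    Eqv (f ++ f') (g ++ g') := by
  have h₁ := eqv_ctx [] f' h
  have h₂ := eqv_ctx g [] h'
  simp only [List.nil_append, List.append_nil] at h₁ h₂
  exact eqv_trans h₁ h₂

theorem eqv_cons {n : ℕ} {f g : Wd n} (x : Fin n × Bool) (h : Eqv f g) :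
    Eqv (x :: f) (x :: g) := eqv_app (eqv_refl [x]) h

theorem run_append {n : ℕ} {α : Type} (u v : List (Fin n × α)) (p : Fin (n + 1)) :
    run (u ++ v) p = run v (run u p) := by
  induction u generalizing p with
  | nil => rfl
  | cons x u ih => exact ih _

theorem run_inj {n : ℕ} {α : Type} (u : List (Fin n × α)) : Function.Injective (run u) := by
  induction u with
  | nil => exact fun _ _ h => h
  | cons x u ih => exact fun p q h => (tr x.1).injective (ih h)

theorem tr_tr {n : ℕ} (i : Fin n) (p : Fin (n + 1)) : tr i (tr i p) = p := by simp [tr]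

theorem tr_far {n : ℕ} (i j : Fin n) (h : (i : ℕ) + 1 < j) (p : Fin (n + 1)) :
    tr i (tr j p) = tr j (tr i p) := by
  have hc : Commute (tr i) (tr j) := by
    apply Equiv.Perm.Disjoint.commute
    intro x
    by_cases hx : x = i.castSucc ∨ x = i.succ
    · right
      unfold tr
      rw [Equiv.swap_apply_of_ne_of_ne]
      · rcases hx with rfl | rfl <;> simp only [ne_eq, Fin.ext_iff, Fin.val_castSucc, Fin.val_succ] <;>
          omega
      · rcases hx with rfl | rfl <;> simp only [ne_eq, Fin.ext_iff, Fin.val_castSucc, Fin.val_succ] <;>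
          omega
    · left
      push Not at hx
      unfold tr
      rw [Equiv.swap_apply_of_ne_of_ne hx.1 hx.2]
  exact congrArg (fun σ : Equiv.Perm (Fin (n + 1)) => σ p) hc.eq

theorem tr_braid {n : ℕ} (i j : Fin n) (h : (j : ℕ) = i + 1) (p : Fin (n + 1)) :
    tr i (tr j (tr i p)) = tr j (tr i (tr j p)) := by
  have e : j.castSucc = i.succ := by
    apply Fin.ext
    simp [h]
  have h1 : i.castSucc ≠ i.succ := by simp [Fin.ext_iff]
  have h2 : i.castSucc ≠ j.succ := by
    simp only [ne_eq, Fin.ext_iff, Fin.val_castSucc, Fin.val_succ]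
    omega
  have h3 : i.succ ≠ j.succ := by
    simp only [ne_eq, Fin.ext_iff, Fin.val_succ]
    omega
  unfold tr
  rw [e]
  by_cases p1 : p = i.castSucc
  · subst p1
    rw [Equiv.swap_apply_left, Equiv.swap_apply_left, Equiv.swap_apply_of_ne_of_ne h2.symm h3.symm,
      Equiv.swap_apply_of_ne_of_ne h1 h2, Equiv.swap_apply_left, Equiv.swap_apply_left]
  · by_cases p2 : p = i.succ
    · subst p2
      rw [Equiv.swap_apply_right, Equiv.swap_apply_of_ne_of_ne h1 h2, Equiv.swap_apply_left,
        Equiv.swap_apply_left, Equiv.swap_apply_of_ne_of_ne h2.symm h3.symm,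
        Equiv.swap_apply_right]
    · by_cases p3 : p = j.succ
      · subst p3
        rw [Equiv.swap_apply_of_ne_of_ne h2.symm h3.symm, Equiv.swap_apply_right,
          Equiv.swap_apply_right, Equiv.swap_apply_of_ne_of_ne h1 h2]
      · simp only [Equiv.swap_apply_of_ne_of_ne p1 p2, Equiv.swap_apply_of_ne_of_ne p2 p3]

theorem st_run {n : ℕ} {f g : Wd n} (h : St f g) (p : Fin (n + 1)) : run f p = run g p := by
  cases h with
  | ss u v i => simp only [run_append, run, tr_tr]
  | far u v i j b' c h => simp only [run_append, run, tr_far i j h]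
  | braid u v i j h => simp only [run_append, run, tr_braid i j h]
  | sx u v i => simp only [run_append, run]
  | ssx u v i j h => simp only [run_append, run, tr_braid i j h]
  | ssx' u v i j h => simp only [run_append, run, tr_braid i j h]

theorem eqv_run {n : ℕ} {f g : Wd n} (h : Eqv f g) (p : Fin (n + 1)) : run f p = run g p := by
  induction h with
  | rel x y h => exact st_run h p
  | refl x => rfl
  | symm x y _ ih => exact ih.symm
  | trans x y z _ _ ih₁ ih₂ => exact ih₁.trans ih₂

/-! ### words with letters in `ℕ` -/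

/-- the flat word without double points with the letters `l` (letters `≥ n` are omitted) -/
def tw (n : ℕ) (l : List ℕ) : Wd n :=
  l.filterMap fun i => if h : i < n then some (⟨i, h⟩, false) else none

theorem tw_append (n : ℕ) (l l' : List ℕ) : tw n (l ++ l') = tw n l ++ tw n l' :=
  List.filterMap_append

theorem tw_cons {n : ℕ} {i : ℕ} (h : i < n) (l : List ℕ) :
    tw n (i :: l) = (⟨i, h⟩, false) :: tw n l := by
  simp [tw, h]

theorem tw_nil (n : ℕ) : tw n [] = [] := rfl

theorem tw_of {n : ℕ} (u : Wd n) (h : nd u = 0) : tw n (u.map fun x => (x.1 : ℕ)) = u := by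
  induction u with
  | nil => rfl
  | cons x u ih =>
    obtain ⟨i, b⟩ := x
    have hb : b = false := by
      rcases b with _ | _
      · rfl
      · simp [nd] at h
    subst hb
    have hu : nd u = 0 := by simpa [nd] using h
    rw [List.map_cons, tw_cons i.2, ih hu]

/-- the descending word `[k + c - 1, …, k]` -/
def Dn (k : ℕ) : ℕ → List ℕ
  | 0 => []
  | c + 1 => (k + c) :: Dn k c

theorem Dn_snoc (k c : ℕ) : Dn k (c + 1) = Dn (k + 1) c ++ [k] := by
  induction c with
  | zero => rfl
  | succ c ih =>
    rw [Dn, ih, Dn]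
    simp only [List.cons_append, List.cons.injEq, and_true]
    omega

theorem far₁ {n : ℕ} (k c i : ℕ) (hi : i + 1 < k) (hn : k + c ≤ n) :
    Eqv (tw n (Dn k c ++ [i])) (tw n (i :: Dn k c)) := by
  induction c with
  | zero => exact eqv_refl _
  | succ c ih =>
    have h₁ : k + c < n := by omega
    have h₂ : i < n := by omega
    rw [Dn, List.cons_append, tw_cons h₁, tw_cons h₂, tw_cons h₁]
    refine eqv_trans (eqv_cons _ (ih (by omega))) ?_
    rw [tw_cons h₂]
    refine eqv_symm ?_
    have := St.far [] (tw n (Dn k c)) (⟨i, h₂⟩ : Fin n) ⟨k + c, h₁⟩ false false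
      (by show i + 1 < k + c; omega)
    exact Relation.EqvGen.rel _ _ this

theorem far₂ {n : ℕ} (k c i : ℕ) (hi : k + c < i) (hn : i < n) :
    Eqv (tw n (Dn k c ++ [i])) (tw n (i :: Dn k c)) := by
  induction c with
  | zero => exact eqv_refl _
  | succ c ih =>
    have h₁ : k + c < n := by omega
    rw [Dn, List.cons_append, tw_cons h₁, tw_cons hn, tw_cons h₁]
    refine eqv_trans (eqv_cons _ (ih (by omega))) ?_
    rw [tw_cons hn]
    have := St.far [] (tw n (Dn k c)) (⟨k + c, h₁⟩ : Fin n) ⟨i, hn⟩ false false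
      (by show k + c + 1 < i; omega)
    exact Relation.EqvGen.rel _ _ this

theorem mid {n : ℕ} (k c i : ℕ) (hi : k < i) (hi' : i < k + c) (hn : k + c ≤ n) :
    Eqv (tw n (Dn k c ++ [i])) (tw n ((i - 1) :: Dn k c)) := by
  induction c with
  | zero => omega
  | succ c ih =>
    have h₁ : k + c < n := by omega
    have h₂ : i - 1 < n := by omega
    rcases Nat.lt_or_ge i (k + c) with h | h
    · rw [Dn, List.cons_append, tw_cons h₁, tw_cons h₂, tw_cons h₁]
      refine eqv_trans (eqv_cons _ (ih h (by omega))) ?_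
      rw [tw_cons h₂]
      refine eqv_symm ?_
      have := St.far [] (tw n (Dn k c)) (⟨i - 1, h₂⟩ : Fin n) ⟨k + c, h₁⟩ false false
        (by show i - 1 + 1 < k + c; omega)
      exact Relation.EqvGen.rel _ _ this
    · obtain rfl : i = k + c := by omega
      obtain ⟨c, rfl⟩ : ∃ c', c = c' + 1 := ⟨c - 1, by omega⟩
      have e₁ : k + (c + 1) - 1 = k + c := by omega
      rw [Dn, Dn, List.cons_append, List.cons_append, tw_cons h₁, tw_cons h₂, tw_cons h₁]
      have h₃ : k + c < n := by omega
      rw [tw_cons h₃, tw_cons h₃]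
      refine eqv_trans (eqv_cons _ (eqv_cons _ (far₂ k c (k + (c + 1)) (by omega) h₁))) ?_
      rw [tw_cons h₁]
      simp only [e₁]
      have := St.braid [] (tw n (Dn k c)) (⟨k + c, h₃⟩ : Fin n) ⟨k + (c + 1), h₁⟩
        (by show k + (c + 1) = k + c + 1; omega)
      exact eqv_symm (Relation.EqvGen.rel _ _ this)

theorem nfc {n : ℕ} (m : ℕ) (hm : m + 1 ≤ n) (l : List ℕ) (hl : ∀ x ∈ l, x < m + 1) :
    ∃ (l' : List ℕ) (k c : ℕ), (∀ x ∈ l', x < m) ∧ k + c = m + 1 ∧
      Eqv (tw n l) (tw n (l' ++ Dn k c)) := by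
  induction l using List.reverseRecOn with
  | nil => exact ⟨[], m + 1, 0, by simp, by omega, eqv_refl _⟩
  | append_singleton l i ih =>
    obtain ⟨l', k, c, hl', hk, he⟩ := ih fun x hx => hl x (by simp [hx])
    have hi : i < m + 1 := hl i (by simp)
    have hin : i < n := by omega
    have h₀ : Eqv (tw n (l ++ [i])) (tw n (l' ++ (Dn k c ++ [i]))) := by
      rw [tw_append, ← List.append_assoc, tw_append]
      exact eqv_app he (eqv_refl _)
    rcases lt_trichotomy (i + 1) k with h | h | h
    · refine ⟨l' ++ [i], k, c, ?_, hk, ?_⟩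
      · intro x hx
        rw [List.mem_append, List.mem_singleton] at hx
        rcases hx with hx | rfl
        · exact hl' x hx
        · omega
      · refine eqv_trans h₀ ?_
        rw [List.append_assoc, tw_append, tw_append n l']
        exact eqv_app (eqv_refl _) (far₁ k c i h (by omega))
    · refine ⟨l', i, c + 1, hl', by omega, ?_⟩
      rw [Dn_snoc]
      have : i + 1 = k := h
      rw [this]
      exact h₀
    · rcases Nat.lt_or_ge k i with h' | h'
      · refine ⟨l' ++ [i - 1], k, c, ?_, hk, ?_⟩
        · intro x hx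
          rw [List.mem_append, List.mem_singleton] at hx
          rcases hx with hx | rfl
          · exact hl' x hx
          · omega
        · refine eqv_trans h₀ ?_
          rw [List.append_assoc, tw_append, tw_append n l']
          exact eqv_app (eqv_refl _) (mid k c i h' (by omega) (by omega))
      · obtain rfl : i = k := by omega
        obtain ⟨c, rfl⟩ : ∃ c', c = c' + 1 := ⟨c - 1, by omega⟩
        refine ⟨l', i + 1, c, hl', by omega, ?_⟩
        refine eqv_trans h₀ ?_
        rw [tw_append, tw_append n l' (Dn (i + 1) c)]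
        refine eqv_app (eqv_refl _) ?_
        rw [Dn_snoc, List.append_assoc, tw_append, List.cons_append, List.nil_append, tw_cons hin,
          tw_cons hin, tw_nil]
        have := St.ss (tw n (Dn (i + 1) c)) [] (⟨i, hin⟩ : Fin n)
        rw [List.append_nil] at this
        exact Relation.EqvGen.rel _ _ this

theorem run_low {n : ℕ} (m : ℕ) (l : List ℕ) (hl : ∀ x ∈ l, x < m) (p : Fin (n + 1))
    (hp : m < p) : run (tw n l) p = p := by
  induction l with
  | nil => rfl
  | cons i l ih =>
    have hi : i < m := hl i (by simp)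
    have hin : i < n := by
      have := p.2
      omega
    rw [tw_cons hin]
    show run (tw n l) (tr ⟨i, hin⟩ p) = p
    have : tr (⟨i, hin⟩ : Fin n) p = p := by
      unfold tr
      apply Equiv.swap_apply_of_ne_of_ne
      · simp only [ne_eq, Fin.ext_iff, Fin.val_castSucc]
        omega
      · simp only [ne_eq, Fin.ext_iff, Fin.val_succ]
        omega
    rw [this]
    exact ih fun x hx => hl x (by simp [hx])

theorem run_Dn {n : ℕ} (k c : ℕ) (h : k + c < n + 1) :
    run (tw n (Dn k c)) ⟨k + c, h⟩ = ⟨k, by omega⟩ := by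
  induction c with
  | zero => rfl
  | succ c ih =>
    have h₁ : k + c < n := by omega
    rw [Dn, tw_cons h₁]
    show run (tw n (Dn k c)) (tr ⟨k + c, h₁⟩ ⟨k + (c + 1), h⟩) = _
    have : tr (⟨k + c, h₁⟩ : Fin n) ⟨k + (c + 1), h⟩ = ⟨k + c, by omega⟩ := by
      unfold tr
      exact Equiv.swap_apply_right _ _
    rw [this]
    exact ih _

theorem cox_aux {n : ℕ} (m : ℕ) (hm : m ≤ n) (l l' : List ℕ) (hl : ∀ x ∈ l, x < m)
    (hl' : ∀ x ∈ l', x < m) (h : run (tw n l) = run (tw n l')) : Eqv (tw n l) (tw n l') := by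
  induction m generalizing l l' with
  | zero =>
    have e : ∀ l : List ℕ, (∀ x ∈ l, x < 0) → l = [] := by
      intro l hl
      rcases l with _ | ⟨x, l⟩
      · rfl
      · exact absurd (hl x (by simp)) (by omega)
    rw [e l hl, e l' hl']
    exact eqv_refl _
  | succ m ih =>
    obtain ⟨l₁, k, c, h₁, hk, he⟩ := nfc m hm l hl
    obtain ⟨l₁', k', c', h₁', hk', he'⟩ := nfc m hm l' hl'
    have hr : ∀ p, run (tw n (Dn k c)) (run (tw n l₁) p) =
        run (tw n (Dn k' c')) (run (tw n l₁') p) := by
      intro p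
      have a := eqv_run he p
      have b := eqv_run he' p
      rw [tw_append, run_append] at a b
      rw [← a, ← b, h]
    have hp := hr ⟨m + 1, by omega⟩
    rw [run_low m l₁ h₁ _ (by show m < m + 1; omega), run_low m l₁' h₁' _ (by show m < m + 1; omega)]
      at hp
    have q : run (tw n (Dn k c)) ⟨m + 1, by omega⟩ = ⟨k, by omega⟩ := by
      have := run_Dn (n := n) k c (by omega)
      simp only [hk] at this
      exact this
    have q' : run (tw n (Dn k' c')) ⟨m + 1, by omega⟩ = ⟨k', by omega⟩ := by
      have := run_Dn (n := n) k' c' (by omega)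
      simp only [hk'] at this
      exact this
    rw [q, q'] at hp
    obtain rfl : k = k' := by simpa using hp
    obtain rfl : c = c' := by omega
    refine eqv_trans he (eqv_trans ?_ (eqv_symm he'))
    rw [tw_append, tw_append]
    refine eqv_app (ih (by omega) l₁ l₁' h₁ h₁' ?_) (eqv_refl _)
    funext p
    exact run_inj _ (hr p)

theorem pf_COX : T_COX := by
  intro n u v hu hv h
  have hl : ∀ w : Wd n, ∀ x ∈ w.map (fun x => (x.1 : ℕ)), x < n := by
    intro w x hx
    rw [List.mem_map] at hx
    obtain ⟨y, _, rfl⟩ := hx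
    exact y.1.2
  have := cox_aux (n := n) n le_rfl _ _ (hl u) (hl v) (by rw [tw_of u hu, tw_of v hv, h])
  rwa [tw_of u hu, tw_of v hv] at this

end Pool.Agent.H59.LNT
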