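import Pool.Agent.H59.LNT.COX

/-!
# Rows FLO, FFO: local relations and the four term relation for words
-/

set_option autoImplicit false

namespace Pool.Agent.H59.LNT

open Pool.Agent.H59.LIN Pool.Agent.H13.LN

/-- regular words as singular words -/
def emb {n : ℕ} (w : Wd n) : SWd n := w.map fun x => (x.1, some x.2)

section

variable {B : Type} [AddCommGroup B] {n : ℕ}

theorem ext_app (F : Wd n → B) (u : Wd n) (w w' : SWd n) :
    ext F u (w ++ w') = ext (fun r => ext F r w') u w := by
  induction w generalizing u with
  | nil => rfl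
  | cons x w ih =>
    obtain ⟨i, b⟩ := x
    cases b with
    | some b => exact ih _
    | none =>
      change ext F (u ++ [(i, true)]) (w ++ w') - ext F (u ++ [(i, false)]) (w ++ w') = _
      rw [ih, ih]
      rfl

theorem ext_pre (F : Wd n → B) (u z : Wd n) (w : SWd n) :
    ext F (u ++ z) w = ext (fun r => F (u ++ r)) z w := by
  induction w generalizing z with
  | nil => rfl
  | cons x w ih =>
    obtain ⟨i, b⟩ := x
    cases b with
    | some b =>
      change ext F (u ++ z ++ [(i, b)]) w = ext (fun r => F (u ++ r)) (z ++ [(i, b)]) w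
      rw [List.append_assoc, ih]
    | none =>
      change ext F (u ++ z ++ [(i, true)]) w - ext F (u ++ z ++ [(i, false)]) w =
        ext (fun r => F (u ++ r)) (z ++ [(i, true)]) w -
        ext (fun r => F (u ++ r)) (z ++ [(i, false)]) w
      rw [List.append_assoc, List.append_assoc, ih, ih]

theorem ext_emb (F : Wd n → B) (u X : Wd n) (w : SWd n) :
    ext F u (emb X ++ w) = ext F (u ++ X) w := by
  induction X generalizing u with
  | nil => simp [emb]
  | cons x X ih =>
    obtain ⟨i, b⟩ := x
    change ext F (u ++ [(i, b)]) (emb X ++ w) = _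
    rw [ih, List.append_assoc]
    rfl

theorem ext_fsub (F G : Wd n → B) (u : Wd n) (w : SWd n) :
    ext (fun r => F r - G r) u w = ext F u w - ext G u w := by
  induction w generalizing u with
  | nil => rfl
  | cons x w ih =>
    obtain ⟨i, b⟩ := x
    cases b with
    | some b => exact ih _
    | none =>
      change ext (fun r => F r - G r) (u ++ [(i, true)]) w -
        ext (fun r => F r - G r) (u ++ [(i, false)]) w =
        (ext F (u ++ [(i, true)]) w - ext F (u ++ [(i, false)]) w) -
        (ext G (u ++ [(i, true)]) w - ext G (u ++ [(i, false)]) w)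
      rw [ih, ih]
      abel

theorem ext_cong (F G : Wd n → B) (u : Wd n) (w : SWd n)
    (h : ∀ r : Wd n, (∀ p, run r p = run w (run u p)) → F r = G r) : ext F u w = ext G u w := by
  induction w generalizing u with
  | nil => exact h u fun p => rfl
  | cons x w ih =>
    obtain ⟨i, b⟩ := x
    cases b with
    | some b =>
      refine ih _ fun r hr => h r fun p => ?_
      rw [hr, run_append]
      rfl
    | none =>
      change ext F (u ++ [(i, true)]) w - ext F (u ++ [(i, false)]) w =
        ext G (u ++ [(i, true)]) w - ext G (u ++ [(i, false)]) w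
      rw [ih (u ++ [(i, true)]), ih (u ++ [(i, false)])]
      · refine fun r hr => h r fun p => ?_
        rw [hr, run_append]
        rfl
      · refine fun r hr => h r fun p => ?_
        rw [hr, run_append]
        rfl

/-- replacement of a regular subword -/
theorem ext_ctx (F : Wd n → B) (X Y : Wd n) (h : ∀ u w : Wd n, F (u ++ X ++ w) = F (u ++ Y ++ w))
    (u w : SWd n) : ext F [] (u ++ (emb X ++ w)) = ext F [] (u ++ (emb Y ++ w)) := by
  rw [ext_app, ext_app F [] u]
  congr 1
  funext r
  rw [ext_emb, ext_emb]
  have e : ∀ z : Wd n, ext F z w = ext (fun s => F (z ++ s)) [] w := by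
    intro z
    have := ext_pre F z [] w
    rwa [List.append_nil] at this
  rw [e, e (r ++ Y)]
  congr 1
  funext s
  exact h r s

/-- expansion of a double point -/
theorem ext_xpn (F : Wd n → B) (u w : SWd n) (i : Fin n) :
    ext F [] (u ++ (i, none) :: w) =
      ext F [] (u ++ (i, some true) :: w) - ext F [] (u ++ (i, some false) :: w) := by
  rw [ext_app, ext_app F [] u, ext_app F [] u, ← ext_fsub]
  rfl

/-- functions on words which satisfy the relations of the braid group -/
structure Reg (F : Wd n → B) : Prop where
  can : ∀ (u v : Wd n) (i : Fin n) (b : Bool), F (u ++ (i, b) :: (i, !b) :: v) = F (u ++ v)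
  far : ∀ (u v : Wd n) (i j : Fin n) (b c : Bool), (i : ℕ) + 1 < j →
    F (u ++ (i, b) :: (j, c) :: v) = F (u ++ (j, c) :: (i, b) :: v)
  brd : ∀ (u v : Wd n) (i j : Fin n), (j : ℕ) = i + 1 →
    F (u ++ (i, true) :: (j, true) :: (i, true) :: v) =
      F (u ++ (j, true) :: (i, true) :: (j, true) :: v)

variable {F : Wd n → B}

theorem r_can (hF : Reg F) (u w : SWd n) (i : Fin n) (b : Bool) :
    ext F [] (u ++ (i, some b) :: (i, some !b) :: w) = ext F [] (u ++ w) :=
  ext_ctx F [(i, b), (i, !b)] [] (fun u w => by simpa using hF.can u w i b) u w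

theorem r_can' (hF : Reg F) (u w : SWd n) (i : Fin n) :
    ext F [] (u ++ (i, some false) :: (i, some true) :: w) = ext F [] (u ++ w) :=
  r_can hF u w i false

theorem r_can'' (hF : Reg F) (u w : SWd n) (i : Fin n) :
    ext F [] (u ++ (i, some true) :: (i, some false) :: w) = ext F [] (u ++ w) :=
  r_can hF u w i true

theorem r_far0 (hF : Reg F) (u w : SWd n) (i j : Fin n) (b c : Bool) (h : (i : ℕ) + 1 < j) :
    ext F [] (u ++ (i, some b) :: (j, some c) :: w) =
      ext F [] (u ++ (j, some c) :: (i, some b) :: w) :=
  ext_ctx F [(i, b), (j, c)] [(j, c), (i, b)] (fun u w => by simpa using hF.far u w i j b c h) u w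

theorem r_brd0 (hF : Reg F) (u w : SWd n) (i j : Fin n) (h : (j : ℕ) = i + 1) :
    ext F [] (u ++ (i, some true) :: (j, some true) :: (i, some true) :: w) =
      ext F [] (u ++ (j, some true) :: (i, some true) :: (j, some true) :: w) :=
  ext_ctx F [(i, true), (j, true), (i, true)] [(j, true), (i, true), (j, true)]
    (fun u w => by simpa using hF.brd u w i j h) u w

/-- expansion of the second letter -/
theorem xpn2 (F : Wd n → B) (u w : SWd n) (x : Fin n × Option Bool) (i : Fin n) :
    ext F [] (u ++ x :: (i, none) :: w) =
      ext F [] (u ++ x :: (i, some true) :: w) - ext F [] (u ++ x :: (i, some false) :: w) := by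
  simpa using ext_xpn F (u ++ [x]) w i

/-- expansion of the third letter -/
theorem xpn3 (F : Wd n → B) (u w : SWd n) (x y : Fin n × Option Bool) (i : Fin n) :
    ext F [] (u ++ x :: y :: (i, none) :: w) =
      ext F [] (u ++ x :: y :: (i, some true) :: w) -
        ext F [] (u ++ x :: y :: (i, some false) :: w) := by
  simpa using ext_xpn F (u ++ [x, y]) w i

theorem r_far (hF : Reg F) (u w : SWd n) (i j : Fin n) (b c : Option Bool) (h : (i : ℕ) + 1 < j) :
    ext F [] (u ++ (i, b) :: (j, c) :: w) = ext F [] (u ++ (j, c) :: (i, b) :: w) := by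
  cases b with
  | some b =>
    cases c with
    | some c => exact r_far0 hF u w i j b c h
    | none => rw [xpn2, ext_xpn, r_far0 hF u w i j b _ h, r_far0 hF u w i j b _ h]
  | none =>
    cases c with
    | some c => rw [xpn2, ext_xpn, r_far0 hF u w i j _ c h, r_far0 hF u w i j _ c h]
    | none =>
      rw [xpn2, ext_xpn, ext_xpn, xpn2, ext_xpn, ext_xpn, r_far0 hF u w i j _ _ h,
        r_far0 hF u w i j _ _ h, r_far0 hF u w i j _ _ h, r_far0 hF u w i j _ _ h]
      abel

theorem r_swp (hF : Reg F) (u w : SWd n) (i : Fin n) :
    ext F [] (u ++ (i, some true) :: (i, none) :: w) =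
      ext F [] (u ++ (i, none) :: (i, some true) :: w) := by
  rw [xpn2, ext_xpn, r_can'' hF, r_can' hF]

theorem r_b1 (hF : Reg F) (u w : SWd n) (i j : Fin n) (b : Option Bool) (h : (j : ℕ) = i + 1) :
    ext F [] (u ++ (i, some true) :: (j, some true) :: (i, b) :: w) =
      ext F [] (u ++ (j, b) :: (i, some true) :: (j, some true) :: w) := by
  have hf : ext F [] (u ++ (i, some true) :: (j, some true) :: (i, some false) :: w) =
      ext F [] (u ++ (j, some false) :: (i, some true) :: (j, some true) :: w) := by
    have h₁ := r_can' hF u ((i, some true) :: (j, some true) :: (i, some false) :: w) j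
    have h₂ := r_brd0 hF (u ++ [(j, some false)]) ((i, some false) :: w) i j h
    have h₃ := r_can'' hF (u ++ [(j, some false), (i, some true), (j, some true)]) w i
    simp only [List.append_assoc, List.cons_append, List.nil_append] at h₂ h₃
    rw [← h₁, ← h₂, h₃]
  cases b with
  | some b =>
    cases b with
    | true => exact r_brd0 hF u w i j h
    | false => exact hf
  | none => rw [xpn3, ext_xpn, hf, r_brd0 hF u w i j h]

theorem r_b2 (hF : Reg F) (u w : SWd n) (i j : Fin n) (b : Option Bool) (h : (j : ℕ) = i + 1) :
    ext F [] (u ++ (j, some true) :: (i, some true) :: (j, b) :: w) =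
      ext F [] (u ++ (i, b) :: (j, some true) :: (i, some true) :: w) := by
  have hf : ext F [] (u ++ (j, some true) :: (i, some true) :: (j, some false) :: w) =
      ext F [] (u ++ (i, some false) :: (j, some true) :: (i, some true) :: w) := by
    have h₁ := r_can' hF u ((j, some true) :: (i, some true) :: (j, some false) :: w) i
    have h₂ := r_brd0 hF (u ++ [(i, some false)]) ((j, some false) :: w) i j h
    have h₃ := r_can'' hF (u ++ [(i, some false), (j, some true), (i, some true)]) w j
    simp only [List.append_assoc, List.cons_append, List.nil_append] at h₂ h₃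
    rw [← h₁, h₂, h₃]
  cases b with
  | some b =>
    cases b with
    | true => exact (r_brd0 hF u w i j h).symm
    | false => exact hf
  | none => rw [xpn3, ext_xpn, hf, r_brd0 hF u w i j h]

/-- the four term relation -/
theorem r_ffo (hF : Reg F) (u w : SWd n) (i j : Fin n) (h : (j : ℕ) = i + 1) :
    ext F [] (u ++ (i, none) :: (j, some true) :: (j, none) :: w) +
      ext F [] (u ++ (i, none) :: (j, some true) :: (i, some true) :: (i, none) ::
        (j, some true) :: w) =
    ext F [] (u ++ (j, some true) :: (j, none) :: (i, none) :: w) +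
      ext F [] (u ++ (j, some true) :: (i, some true) :: (i, none) :: (j, some true) ::
        (i, none) :: w) := by
  -- `x_i` commutes with `σ_j σ_i σ_i σ_j`
  have hc : ext F [] (u ++ (i, none) :: (j, some true) :: (i, some true) :: (i, some true) ::
        (j, some true) :: w) =
      ext F [] (u ++ (j, some true) :: (i, some true) :: (i, some true) :: (j, some true) ::
        (i, none) :: w) := by
    have h₁ := r_b1 hF (u ++ [(j, some true), (i, some true)]) w i j none h
    have h₂ := r_b2 hF u ((i, some true) :: (j, some true) :: w) i j none h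
    simp only [List.append_assoc, List.cons_append, List.nil_append] at h₁
    rw [h₁, h₂]
  -- `σ_j σ_i σ_i σ_j = σ_j σ_i x_i σ_j + σ_j x_j + 1`
  have hz : ∀ u' w' : SWd n, ext F [] (u' ++ (j, some true) :: (i, some true) ::
        (i, some true) :: (j, some true) :: w') =
      ext F [] (u' ++ (j, some true) :: (i, some true) :: (i, none) :: (j, some true) :: w') +
        ext F [] (u' ++ (j, some true) :: (j, none) :: w') + ext F [] (u' ++ w') := by
    intro u' w'
    have h₁ := r_can'' hF (u' ++ [(j, some true)]) ((j, some true) :: w') i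
    have h₂ := r_can'' hF u' w' j
    simp only [List.append_assoc, List.cons_append, List.nil_append] at h₁
    rw [xpn3, xpn2, h₁, h₂]
    abel
  have e₁ := hz (u ++ [(i, none)]) w
  have e₂ := hz u ((i, none) :: w)
  simp only [List.append_assoc, List.cons_append, List.nil_append] at e₁
  rw [e₁, e₂] at hc
  have := add_right_cancel hc
  rw [add_comm, this, add_comm]

end

/-! ### knots -/

open Classical in
/-- the function `v` on the words with connected closure, `0` on the other words -/
noncomputable def cut {B : Type} [AddCommGroup B] {n : ℕ} (v : Wd n → B) (w : Wd n) : B :=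
  if Knot w then v w else 0

theorem knot_of {n : ℕ} {α β : Type} {u : List (Fin n × α)} {v : List (Fin n × β)}
    (h : run u = run v) (hu : Knot u) : Knot v := by
  intro p
  rw [← h]
  exact hu p

theorem ext_cut {B : Type} [AddCommGroup B] {n : ℕ} (v : Wd n → B) (w : SWd n) (h : Knot w) :
    ext (cut v) [] w = ext v [] w := by
  apply ext_cong
  intro r hr
  have : Knot r := knot_of (u := w) (funext fun p => (hr p).symm) h
  rw [cut, if_pos this]

theorem reg_cut {B : Type} [AddCommGroup B] {v : (n : ℕ) → Wd n → B} (hv : KInv v) (n : ℕ) :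
    Reg (cut (v n)) := by
  have key : ∀ a b : Wd n, Mv ⟨n, a⟩ ⟨n, b⟩ → run a = run b → cut (v n) a = cut (v n) b := by
    intro a b hm hr
    unfold cut
    by_cases ha : Knot a
    · rw [if_pos ha, if_pos (knot_of hr ha)]
      exact hv _ _ hm ha
    · rw [if_neg ha, if_neg fun hb => ha (knot_of hr.symm hb)]
  refine ⟨?_, ?_, ?_⟩
  · intro a b i c
    refine key _ _ (Mv.cancel n a b i c) ?_
    funext p
    simp only [run_append, run, tr_tr]
  · intro a b i j c c' h
    refine key _ _ (Mv.far n a b i j c c' h) ?_
    funext p
    simp only [run_append, run, tr_far i j h]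
  · intro a b i j h
    refine key _ _ (Mv.braid n a b i j h) ?_
    funext p
    simp only [run_append, run, tr_braid i j h]

theorem pf_FLO : T_FLO := by
  intro B _ v hv n u w
  have hF := reg_cut hv n
  refine ⟨?_, ?_, ?_, ?_, ?_⟩
  · intro i hk
    rw [← ext_cut (v n) (u ++ w) hk, ← ext_cut (v n) _ (knot_of ?_ hk), r_can'' hF]
    funext p
    simp only [run_append, run, tr_tr]
  · intro i j b c h hk
    rw [← ext_cut (v n) _ hk, ← ext_cut (v n) (u ++ (j, c) :: (i, b) :: w) (knot_of ?_ hk),
      r_far hF u w i j b c h]
    funext p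
    simp only [run_append, run, tr_far i j h]
  · intro i hk
    rw [← ext_cut (v n) _ hk, ← ext_cut (v n) (u ++ (i, none) :: (i, some true) :: w)
      (knot_of ?_ hk), r_swp hF u w i]
    funext p
    simp only [run_append, run]
  · intro i j b h hk
    rw [← ext_cut (v n) _ hk, ← ext_cut (v n)
      (u ++ (j, b) :: (i, some true) :: (j, some true) :: w) (knot_of ?_ hk),
      r_b1 hF u w i j b h]
    funext p
    simp only [run_append, run, tr_braid i j h]
  · intro i j b h hk
    rw [← ext_cut (v n) _ hk, ← ext_cut (v n)
      (u ++ (i, b) :: (j, some true) :: (i, some true) :: w) (knot_of ?_ hk),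
      r_b2 hF u w i j b h]
    funext p
    simp only [run_append, run, tr_braid i j h]

theorem pf_FFO : T_FFO := by
  intro B _ v hv n u w i j h hk
  have hF := reg_cut hv n
  rw [← ext_cut (v n) _ hk, ← ext_cut (v n) _ (knot_of ?_ hk), ← ext_cut (v n) _ (knot_of ?_ hk),
    ← ext_cut (v n) (u ++ (j, some true) :: (i, some true) :: (i, none) :: (j, some true) ::
        (i, none) :: w) (knot_of ?_ hk)]
  · exact r_ffo hF u w i j h
  · funext p
    simp only [run_append, run, tr_tr]
  · funext p
    simp only [run_append, run, tr_tr]
  · funext p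
    simp only [run_append, run, tr_tr]

end Pool.Agent.H59.LNT
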