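import Pool.Agent.H59.LNT.FLA
import Pool.Agent.H59.LNT.NF
import Pool.Agent.H11.LNT.EXA
import Pool.Agent.H11.LNT.WSF
import Pool.Agent.H24.LNT.FCC
import Pool.Agent.H25.LNT.WSA
import Pool.Agent.H26.LNT.PRM
import Pool.Agent.H31.LNT.HRK
import Pool.Agent.H31.LNT.REA
import Pool.Agent.H31.LNT.SUR
import Pool.Agent.H34.LNT.BL2
import Pool.Agent.H34.LNT.HEM
import Pool.Agent.H34.LNT.HEX
import Pool.Agent.H34.LNT.HRO
import Pool.Agent.H35.LNT.C1
import Pool.Agent.H39.LNT.C2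
import Pool.Agent.H42.LNT.GEQ
import Pool.Agent.H42.LNT.HKI
import Pool.Agent.H45.LNT.WSI
import Pool.Agent.H46.LNT.XC
import Pool.Agent.H63.LNT.SYM
import Pool.Agent.H68.LNT.FUL
import Pool.Agent.H7.LNT.HSW
import Pool.Agent.H70.LNT.GAU
import Pool.Agent.H72.LNT.RUN
import Pool.Agent.H73.LNT.EVA
import Pool.Agent.H73.LNT.EVP
import Pool.Agent.H73.LNT.PRL
import Pool.Agent.H74.LNT.HFO
import Pool.Agent.H78.LNT.SPL
import Pool.Agent.H98.LNT.EQC
import Pool.Agent.H99.LNT.BLV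

/-!
# The topological half: the symbol of a Vassiliev invariant is a weight system
-/

set_option autoImplicit false

namespace Pool.Agent.H59.LNT

open Pool.Agent.H59.LIN Pool.Agent.H13.LN

theorem top_RUN : T_RUN := Pool.Agent.H72.LNT.run
theorem top_EXA : T_EXA := Pool.Agent.H11.LNT.exa
theorem top_EQC : T_EQC := Pool.Agent.H98.LNT.eqc top_RUN
theorem top_SUR : T_SUR := Pool.Agent.H31.LNT.sur top_RUN
theorem top_PRL : T_PRL := Pool.Agent.H73.LNT.prl top_RUN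
theorem top_EVA : T_EVA := Pool.Agent.H73.LNT.eva top_RUN
theorem top_EVP : T_EVP := Pool.Agent.H73.LNT.evp top_RUN top_EVA top_PRL
theorem top_BLV : T_BLV := Pool.Agent.H99.LNT.blv top_RUN top_EVA top_EVP top_PRL
theorem top_GAU : T_GAU := Pool.Agent.H70.LNT.gau top_RUN top_EVA top_BLV
theorem top_XC : T_XC := Pool.Agent.H46.LNT.xc top_RUN top_EQC top_SUR pf_COX
theorem top_NF : T_NF := pf_NF top_RUN top_PRL top_XC
theorem top_GEQ : T_GEQ := Pool.Agent.H42.LNT.geq top_RUN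
theorem top_C1 : T_C1 :=
  Pool.Agent.H35.LNT.c1 top_RUN top_EQC top_SUR top_PRL top_NF top_EVP top_BLV top_GEQ
theorem top_C2 : T_C2 := Pool.Agent.H39.LNT.c2 top_RUN top_SUR top_EVA
theorem top_BL2 : T_BL2 := Pool.Agent.H34.LNT.bl2 top_RUN
theorem top_HEX : T_HEX := Pool.Agent.H34.LNT.hex top_C1 top_BLV
theorem top_HRO : T_HRO := Pool.Agent.H34.LNT.hro top_C2 top_BL2 top_BLV
theorem top_HRK : T_HRK := Pool.Agent.H31.LNT.hrk top_RUN top_C2 top_BL2 top_BLV top_EVA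
theorem top_HEM : T_HEM := Pool.Agent.H34.LNT.hem top_RUN top_C2 top_BL2 top_BLV top_EVA
theorem top_HSW : T_HSW := Pool.Agent.H7.LNT.hsw top_RUN top_C2 top_BL2 top_EVA
theorem top_HKI : T_HKI := Pool.Agent.H42.LNT.hki top_RUN top_C2 top_BL2 top_BLV top_EVA
theorem top_HFO : T_HFO := Pool.Agent.H74.LNT.hfo top_RUN top_C2 top_BL2 top_BLV top_EVA
theorem top_SPL : T_SPL := Pool.Agent.H78.LNT.spl
theorem top_FUL : T_FUL := Pool.Agent.H68.LNT.ful top_SPL
theorem top_PRM : T_PRM := Pool.Agent.H26.LNT.prm top_FUL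
theorem top_WSA : T_WSA := Pool.Agent.H25.LNT.wsa top_FUL top_PRM
theorem top_WSI : T_WSI := Pool.Agent.H45.LNT.wsi
theorem top_WSF : T_WSF := Pool.Agent.H11.LNT.wsf
theorem top_REA : T_REA := Pool.Agent.H31.LNT.rea top_C2 top_BL2 top_GAU top_RUN
theorem top_FCC : T_FCC := Pool.Agent.H24.LNT.fcc top_EXA

theorem top_FLA (hFGL : T_FGL) : T_FLA := pf_FLA top_RUN top_FCC pf_FLO pf_FFO hFGL

/-- the symbol of a Vassiliev invariant is a weight system -/
theorem top_SYM (hFGL : T_FGL) : T_SYM :=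
  Pool.Agent.H63.LNT.sym (top_FLA hFGL) top_HEX top_HRO top_HRK top_HEM top_HSW top_HKI top_HFO
    top_WSA top_WSI top_WSF top_GAU top_RUN top_BLV

end Pool.Agent.H59.LNT
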