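import Pool.Agent.H59.LNT.Top
import Pool.Agent.H60.LNT.FGL

/-!
# The topological half, without hypotheses
-/

set_option autoImplicit false

namespace Pool.Agent.H59.LNT

open Pool.Agent.H59.LIN Pool.Agent.H13.LN

theorem top_FGL : T_FGL := Pool.Agent.H60.LNT.fgl top_EXA

/-- the symbol of a Vassiliev invariant is a weight system -/
theorem fin_SYM : T_SYM := top_SYM top_FGL

end Pool.Agent.H59.LNT
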